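import Pool.Agent.Helper38.RS.Goals3

set_option autoImplicit false

namespace Pool.Agent.Helper17.RS

open NumberField Module IsDedekindDomain Pool.Agent.Helper38.RS

section

variable {F : Type} [Field F] [NumberField F]

lemma absN_unit_mul (ε : (𝓞 F)ˣ) (α : F) : absN ((ε : F) * α) = absN α := by
  have h : |((Algebra.norm ℚ (ε : F) : ℚ) : ℝ)| = 1 := by
    have h1 := NumberField.isUnit_iff_norm.mp ε.isUnit
    have h2 : |(Algebra.norm ℚ (ε : F) : ℚ)| = 1 := by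
      rw [← RingOfIntegers.coe_norm]
      exact h1
    exact_mod_cast h2
  unfold absN
  rw [map_mul, Rat.cast_mul, abs_mul, h, one_mul]

lemma absN_eq_absNorm (α : 𝓞 F) : absN (α : F) = (Ideal.absNorm (Ideal.span {α}) : ℝ) := by
  unfold absN
  rw [Ideal.absNorm_span_singleton]
  have h : (Algebra.norm ℚ (α : F) : ℚ) = ((Algebra.norm ℤ α : ℤ) : ℚ) :=
    (Algebra.coe_norm_int α).symm
  rw [h]
  push_cast
  rw [Nat.cast_natAbs]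
  push_cast
  rfl

/-- a generator of a principal ideal -/
noncomputable def gen {Λ : Ideal (𝓞 F)} (J : {J : Ideal (𝓞 F) // J ≠ ⊥ ∧ J ≤ Λ ∧ J.IsPrincipal}) :
    𝓞 F := J.2.2.2.principal.choose

omit [NumberField F] in
lemma span_gen {Λ : Ideal (𝓞 F)} (J : {J : Ideal (𝓞 F) // J ≠ ⊥ ∧ J ≤ Λ ∧ J.IsPrincipal}) :
    Ideal.span {gen J} = J.1 := J.2.2.2.principal.choose_spec.symm

lemma gen_ne {Λ : Ideal (𝓞 F)} (J : {J : Ideal (𝓞 F) // J ≠ ⊥ ∧ J ≤ Λ ∧ J.IsPrincipal}) :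
    gen J ≠ 0 := by
  intro h
  apply J.2.1
  rw [← span_gen J, h]
  simp

lemma gen_mem {Λ : Ideal (𝓞 F)} (J : {J : Ideal (𝓞 F) // J ≠ ⊥ ∧ J ≤ Λ ∧ J.IsPrincipal}) :
    gen J ∈ Λ := J.2.2.1 (by rw [← span_gen J]; exact Ideal.mem_span_singleton_self _)

/-- the parametrisation of the nonzero elements -/
noncomputable def par (Λ : Ideal (𝓞 F))
    (p : {J : Ideal (𝓞 F) // J ≠ ⊥ ∧ J ≤ Λ ∧ J.IsPrincipal} × (𝓞 F)ˣ) :
    {α : 𝓞 F // α ≠ 0 ∧ α ∈ Λ} :=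
  ⟨(p.2 : 𝓞 F) * gen p.1, mul_ne_zero p.2.ne_zero (gen_ne p.1), Λ.mul_mem_left _ (gen_mem p.1)⟩

lemma par_val (Λ : Ideal (𝓞 F))
    (p : {J : Ideal (𝓞 F) // J ≠ ⊥ ∧ J ≤ Λ ∧ J.IsPrincipal} × (𝓞 F)ˣ) :
    (par Λ p).1 = (p.2 : 𝓞 F) * gen p.1 := rfl

lemma span_par (Λ : Ideal (𝓞 F))
    (p : {J : Ideal (𝓞 F) // J ≠ ⊥ ∧ J ≤ Λ ∧ J.IsPrincipal} × (𝓞 F)ˣ) :
    Ideal.span {(par Λ p).1} = p.1.1 := by
  rw [← span_gen p.1, par_val]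
  exact Ideal.span_singleton_mul_left_unit p.2.isUnit _

lemma par_bij (Λ : Ideal (𝓞 F)) : Function.Bijective (par Λ) := by
  constructor
  · intro p q h
    have h1 : p.1 = q.1 := by
      apply Subtype.ext
      rw [← span_par Λ p, ← span_par Λ q, h]
    obtain ⟨J, e⟩ := p
    obtain ⟨J', e'⟩ := q
    obtain rfl : J = J' := h1
    have h2 : (e : 𝓞 F) * gen J = (e' : 𝓞 F) * gen J := congrArg Subtype.val h
    have h3 := mul_right_cancel₀ (gen_ne J) h2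
    have h4 : e = e' := Units.ext h3
    rw [h4]
  · intro α
    have hne : Ideal.span {α.1} ≠ ⊥ := by
      intro h
      exact α.2.1 (Ideal.span_singleton_eq_bot.mp h)
    have hle : Ideal.span {α.1} ≤ Λ := (Ideal.span_singleton_le_iff_mem _).mpr α.2.2
    let J : {J : Ideal (𝓞 F) // J ≠ ⊥ ∧ J ≤ Λ ∧ J.IsPrincipal} :=
      ⟨Ideal.span {α.1}, hne, hle, ⟨⟨α.1, rfl⟩⟩⟩
    have h1 : Ideal.span {gen J} = Ideal.span {α.1} := span_gen J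
    obtain ⟨u, hu⟩ := Ideal.span_singleton_eq_span_singleton.mp h1
    refine ⟨(J, u), Subtype.ext ?_⟩
    rw [par_val, mul_comm]
    exact hu

lemma summable_sub (g : Ideal (𝓞 F) → ℝ) (Λ : Ideal (𝓞 F))
    (hS : Summable fun J : {J : Ideal (𝓞 F) // J ≠ ⊥} => g J.1) :
    Summable fun J : {J : Ideal (𝓞 F) // J ≠ ⊥ ∧ J ≤ Λ ∧ J.IsPrincipal} => g J.1 := by
  let i : {J : Ideal (𝓞 F) // J ≠ ⊥ ∧ J ≤ Λ ∧ J.IsPrincipal} → {J : Ideal (𝓞 F) // J ≠ ⊥} :=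
    fun J => ⟨J.1, J.2.1⟩
  have hinj : Function.Injective i := by
    rintro ⟨J, hJ⟩ ⟨J', hJ'⟩ h
    have h' : J = J' := congrArg Subtype.val h
    subst h'
    rfl
  exact hS.comp_injective (i := i) hinj

end

theorem s_unf (h1 : S_GFB) (h2 : S_EUL) : S_UNF := by
  intro F _ _ s hs f hf1 Λ
  obtain ⟨hsum, hG, ⟨c, hc, hGc⟩, hpos⟩ := h1 F
  obtain ⟨C, hC⟩ := h2 F
  have hS : Summable fun J : {J : Ideal (𝓞 F) // J ≠ ⊥} => (Ideal.absNorm J.1 : ℝ) ^ (-s) :=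
    (hC (fun _ => 1) rfl (by intro I J; norm_num) (by intro I; norm_num) s hs).1
  have hSJ : Summable fun J : {J : Ideal (𝓞 F) // J ≠ ⊥ ∧ J ≤ Λ ∧ J.IsPrincipal} =>
      (Ideal.absNorm J.1 : ℝ) ^ (-s) := summable_sub (fun J => (Ideal.absNorm J : ℝ) ^ (-s)) Λ hS
  let e := Equiv.ofBijective (par Λ) (par_bij Λ)
  have hval : ∀ p : {J : Ideal (𝓞 F) // J ≠ ⊥ ∧ J ≤ Λ ∧ J.IsPrincipal} × (𝓞 F)ˣ,
      gs s (((e p).1 : 𝓞 F) : F) = (Ideal.absNorm p.1.1 : ℝ) ^ (-s) / Gf ((gen p.1 : 𝓞 F) : F) *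
        hf (((p.2 : 𝓞 F) : F) * ((gen p.1 : 𝓞 F) : F)) := by
    intro p
    have hp : (((e p).1 : 𝓞 F) : F) = ((p.2 : 𝓞 F) : F) * ((gen p.1 : 𝓞 F) : F) := by
      show (((par Λ p).1 : 𝓞 F) : F) = _
      rw [par_val]
      simp
    rw [hp]
    unfold gs
    rw [hG, absN_unit_mul, absN_eq_absNorm, span_gen]
    ring
  have hpos' : ∀ J : {J : Ideal (𝓞 F) // J ≠ ⊥ ∧ J ≤ Λ ∧ J.IsPrincipal},
      0 < Gf ((gen J : 𝓞 F) : F) := by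
    intro J
    exact lt_of_lt_of_le hc (hGc _ (by exact_mod_cast gen_ne J))
  have hfne : ∀ (J : {J : Ideal (𝓞 F) // J ≠ ⊥ ∧ J ≤ Λ ∧ J.IsPrincipal}) (u : (𝓞 F)ˣ),
      0 ≤ hf (((u : 𝓞 F) : F) * ((gen J : 𝓞 F) : F)) := by
    intro J u
    refine (hpos _ ?_).1.le
    refine mul_ne_zero ?_ (by exact_mod_cast gen_ne J)
    exact_mod_cast u.ne_zero
  have hinner : ∀ J : {J : Ideal (𝓞 F) // J ≠ ⊥ ∧ J ≤ Λ ∧ J.IsPrincipal},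
      HasSum (fun u : (𝓞 F)ˣ => (Ideal.absNorm J.1 : ℝ) ^ (-s) / Gf ((gen J : 𝓞 F) : F) *
        hf (((u : 𝓞 F) : F) * ((gen J : 𝓞 F) : F))) ((Ideal.absNorm J.1 : ℝ) ^ (-s)) := by
    intro J
    have h3 := (hsum ((gen J : 𝓞 F) : F) (by exact_mod_cast gen_ne J)).hasSum
    have h4 := h3.mul_left ((Ideal.absNorm J.1 : ℝ) ^ (-s) / Gf ((gen J : 𝓞 F) : F))
    have h5 : (Ideal.absNorm J.1 : ℝ) ^ (-s) / Gf ((gen J : 𝓞 F) : F) *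
        (∑' u : (𝓞 F)ˣ, hf (((u : 𝓞 F) : F) * ((gen J : 𝓞 F) : F))) =
        (Ideal.absNorm J.1 : ℝ) ^ (-s) := by
      have : (∑' u : (𝓞 F)ˣ, hf (((u : 𝓞 F) : F) * ((gen J : 𝓞 F) : F))) =
        Gf ((gen J : 𝓞 F) : F) := rfl
      rw [this, div_mul_cancel₀ _ (hpos' J).ne']
    rw [h5] at h4
    exact h4
  have hprod : Summable fun p : {J : Ideal (𝓞 F) // J ≠ ⊥ ∧ J ≤ Λ ∧ J.IsPrincipal} × (𝓞 F)ˣ =>
      (Ideal.absNorm p.1.1 : ℝ) ^ (-s) / Gf ((gen p.1 : 𝓞 F) : F) *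
        hf (((p.2 : 𝓞 F) : F) * ((gen p.1 : 𝓞 F) : F)) := by
    rw [summable_prod_of_nonneg]
    · refine ⟨fun J => (hinner J).summable, ?_⟩
      refine hSJ.congr (fun J => ?_)
      exact ((hinner J).tsum_eq).symm
    · intro p
      exact mul_nonneg (div_nonneg (Real.rpow_nonneg (Nat.cast_nonneg _) _) (hpos' p.1).le)
        (hfne p.1 p.2)
  have hfirst : Summable fun α : {α : 𝓞 F // α ≠ 0 ∧ α ∈ Λ} => gs s ((α.1 : 𝓞 F) : F) := by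
    rw [← e.summable_iff]
    refine hprod.congr (fun p => ?_)
    exact (hval p).symm
  refine ⟨hfirst, ?_⟩
  have hspan : ∀ p : {J : Ideal (𝓞 F) // J ≠ ⊥ ∧ J ≤ Λ ∧ J.IsPrincipal} × (𝓞 F)ˣ,
      Ideal.span {(e p).1} = p.1.1 := fun p => span_par Λ p
  have hprod2 : Summable fun p : {J : Ideal (𝓞 F) // J ≠ ⊥ ∧ J ≤ Λ ∧ J.IsPrincipal} × (𝓞 F)ˣ =>
      f p.1.1 * ((Ideal.absNorm p.1.1 : ℝ) ^ (-s) / Gf ((gen p.1 : 𝓞 F) : F) *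
        hf (((p.2 : 𝓞 F) : F) * ((gen p.1 : 𝓞 F) : F))) := by
    refine Summable.of_norm_bounded hprod (fun p => ?_)
    have h6 : 0 ≤ (Ideal.absNorm p.1.1 : ℝ) ^ (-s) / Gf ((gen p.1 : 𝓞 F) : F) *
        hf (((p.2 : 𝓞 F) : F) * ((gen p.1 : 𝓞 F) : F)) :=
      mul_nonneg (div_nonneg (Real.rpow_nonneg (Nat.cast_nonneg _) _) (hpos' p.1).le)
        (hfne p.1 p.2)
    rw [Real.norm_eq_abs, abs_mul, abs_of_nonneg h6]
    exact mul_le_of_le_one_left h6 (hf1 _)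
  rw [← e.tsum_eq (fun α : {α : 𝓞 F // α ≠ 0 ∧ α ∈ Λ} =>
    f (Ideal.span {α.1}) * gs s ((α.1 : 𝓞 F) : F))]
  have h7 : (∑' p : {J : Ideal (𝓞 F) // J ≠ ⊥ ∧ J ≤ Λ ∧ J.IsPrincipal} × (𝓞 F)ˣ,
      f (Ideal.span {(e p).1}) * gs s (((e p).1 : 𝓞 F) : F)) =
      ∑' p : {J : Ideal (𝓞 F) // J ≠ ⊥ ∧ J ≤ Λ ∧ J.IsPrincipal} × (𝓞 F)ˣ,
      f p.1.1 * ((Ideal.absNorm p.1.1 : ℝ) ^ (-s) / Gf ((gen p.1 : 𝓞 F) : F) *
        hf (((p.2 : 𝓞 F) : F) * ((gen p.1 : 𝓞 F) : F))) := by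
    refine tsum_congr (fun p => ?_)
    rw [hspan p, hval p]
  rw [h7, hprod2.tsum_prod]
  refine tsum_congr (fun J => ?_)
  exact ((hinner J).mul_left (f J.1)).tsum_eq

end Pool.Agent.Helper17.RS
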